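import Mathlib
import Pool.Agent.H321R2.OSI.Lower
import Pool.Agent.H321R2.OSI.LowCoh

/-!
# Q1: constant failure probability does not give relative error `1 + O(ε)`

For every fixed failure probability `δ > 0` there is an oblivious subspace injection of dimension
`1`, injectivity `1` and failure probability `δ` and a matrix for which the randomized SVD has, for
every outcome, an error larger than `(1 + c)` times the optimal one.
-/

namespace Pool.Agent.Results.MP_082b65_an.ConstantFailure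

open MeasureTheory Matrix Finset Pool.Agent.H321R2.OSI

/-- The statement of Q1 for the failure probability `δ`, the constant `C` and the success
probability `p₀`: for every `ε` in `(0, 1)`, every `r` with `1 ≤ r ≤ d`, every real `n × d` matrix
`A` and every random `d × k` matrix `S` that is an oblivious subspace injection with dimension `r`,
injectivity `1 - ε` and failure probability `δ`, there is an event `D` of probability at least `p₀`
on which the randomized SVD satisfies `‖A - Ã‖_F ≤ (1 + C ε) ‖A - A_r‖_F`. -/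
def ConstBound (δ C p₀ : ℝ) : Prop :=
  ∀ ε : ℝ, 0 < ε → ε < 1 →
    ∀ (n d k r : ℕ), 1 ≤ r → r ≤ d → ∀ (A : Matrix (Fin n) (Fin d) ℝ)
      (W : Type) (_ : MeasurableSpace W) (P : Measure W) (_ : IsProbabilityMeasure P)
      (S : W → Matrix (Fin d) (Fin k) ℝ), IsOSI P S r (1 - ε) δ →
        ∃ D : Set W, MeasurableSet D ∧ p₀ ≤ P.real D ∧
          ∀ w ∈ D, frob (A - rsvd A (S w)) ≤ (1 + C * ε) * bestErr A r

/-- The explicit example. -/
theorem example_exists (δ : ℝ) (hδ : 0 < δ) :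
    ∃ c : ℝ, 0 < c ∧ ∃ (d k : ℕ) (A : Matrix (Fin d) (Fin d) ℝ) (W : Type)
      (_ : MeasurableSpace W) (P : Measure W) (_ : IsProbabilityMeasure P)
      (S : W → Matrix (Fin d) (Fin k) ℝ), 1 ≤ d ∧ (∀ ε : ℝ, 0 ≤ ε → IsOSI P S 1 (1 - ε) δ) ∧
        0 ≤ bestErr A 1 ∧ ∀ w, (1 + c) * bestErr A 1 < frob (A - rsvd A (S w)) := by
  obtain ⟨K₀, hK₀⟩ := exists_nat_gt (2 / δ)
  set K : ℕ := K₀ + 2 with hKdef
  have hK2 : 2 ≤ K := by omega
  have hKr : (2 : ℝ) ≤ K := by exact_mod_cast hK2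
  have hδK : 2 ≤ δ * K := by
    have h1 : 2 / δ ≤ K := by
      rw [hKdef]; push_cast; linarith
    rw [div_le_iff₀ hδ] at h1
    linarith
  obtain ⟨p, hpge, hpp⟩ := Nat.exists_infinite_primes (32 * K ^ 4 + 1)
  have : Fact p.Prime := ⟨hpp⟩
  have hpr : (32 : ℝ) * K ^ 4 + 1 ≤ p := by exact_mod_cast hpge
  have hK2' : (4 : ℝ) ≤ (K : ℝ) ^ 2 := by nlinarith
  have hK4 : (4 : ℝ) * K ^ 2 ≤ 32 * K ^ 4 := by nlinarith [sq_nonneg ((K : ℝ))]
  set s : ℝ := 1 / (2 * (K : ℝ) ^ 2) with hs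
  have hKpos : (0 : ℝ) < K := by linarith
  have hs0 : 0 < s := by positivity
  have hs8 : s ≤ 1 / 8 := by
    rw [hs]
    apply one_div_le_one_div_of_le (by norm_num)
    linarith
  have hs1 : s ≤ 1 := by linarith
  have hs2 : s ^ 2 ≤ 1 := by nlinarith
  obtain ⟨w, hw1, hw2, hw3⟩ := exists_lowcoh (p := p)
  have hp1 : (0 : ℝ) < (p : ℝ) - 1 := by
    have : (0 : ℝ) < 32 * (K : ℝ) ^ 4 := by positivity
    linarith
  have hinv : 1 / ((p : ℝ) - 1) ≤ s / 2 := by
    rw [hs, div_div, div_le_div_iff₀ hp1 (by positivity)]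
    nlinarith
  set b := brow s w with hb
  have hg : ∀ j, gram b j j = 1 := by
    intro j
    refine Fin.cases ?_ (fun l => ?_) j
    · exact gram_brow_zero s w
    · rw [hb, gram_brow_succ s hs2 w, hw1]
      ring
  have hoff : ∀ j l, j ≠ l → |gram b j l| ≤ s := by
    intro j l
    refine Fin.cases ?_ (fun j' => ?_) j
    · refine Fin.cases ?_ (fun l' => ?_) l
      · intro h; exact absurd rfl h
      · intro _
        rw [hb, gram_brow_zero_succ, abs_of_pos hs0]
    · refine Fin.cases ?_ (fun l' => ?_) l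
      · intro _
        rw [gram_symm, hb, gram_brow_zero_succ, abs_of_pos hs0]
      · intro h
        have hne : j' ≠ l' := fun h' => h (by rw [h'])
        rw [hb, gram_brow_succ s hs2 w]
        have h1 := hw2 j' l' hne
        have h2 : |(1 - s ^ 2) * ∑ i, w j' i * w l' i| ≤ s / 2 := by
          rw [abs_mul, abs_of_nonneg (by linarith : (0 : ℝ) ≤ 1 - s ^ 2)]
          calc (1 - s ^ 2) * |∑ i, w j' i * w l' i| ≤ 1 * |∑ i, w j' i * w l' i| :=
                mul_le_mul_of_nonneg_right (by nlinarith [sq_nonneg s]) (abs_nonneg _)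
            _ ≤ s / 2 := by rw [one_mul]; exact h1.trans hinv
        calc |s ^ 2 + (1 - s ^ 2) * ∑ i, w j' i * w l' i|
            ≤ |s ^ 2| + |(1 - s ^ 2) * ∑ i, w j' i * w l' i| := abs_add_le _ _
          _ ≤ s ^ 2 + s / 2 := by
              rw [abs_of_nonneg (sq_nonneg s)]
              linarith
          _ ≤ s := by nlinarith
  have hμK : 2 * s ^ 2 * (K : ℝ) ^ 3 ≤ 1 := by
    have h1 : 2 * s ^ 2 * (K : ℝ) ^ 3 = 1 / (2 * K) := by
      rw [hs]; field_simp
    rw [h1, div_le_one (by positivity)]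
    linarith
  have hN : 0 < p ^ 3 := pow_pos hpp.pos 3
  have hpr0 : (0 : ℝ) < p := by exact_mod_cast hpp.pos
  have hk : (((p ^ 2 : ℕ) : ℝ) + 1) ≤ ((p ^ 3 : ℕ) : ℝ) * s ^ 2 / 4 := by
    have h1 : ((p ^ 3 : ℕ) : ℝ) * s ^ 2 / 4 = (p : ℝ) ^ 3 / (16 * K ^ 4) := by
      rw [hs]; push_cast; field_simp; ring
    rw [h1, le_div_iff₀ (by positivity)]
    push_cast
    have h2 : (1 : ℝ) ≤ (p : ℝ) ^ 2 := by
      have : (1 : ℝ) ≤ p := by exact_mod_cast hpp.one_lt.le
      nlinarith
    have h3 : (32 : ℝ) * K ^ 4 * p ^ 2 ≤ p * p ^ 2 :=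
      mul_le_mul_of_nonneg_right (by linarith) (by positivity)
    have h4 : (0 : ℝ) ≤ 16 * (K : ℝ) ^ 4 := by positivity
    nlinarith
  have hNr : (0 : ℝ) < ((p ^ 3 : ℕ) : ℝ) := by exact_mod_cast hN
  refine ⟨s ^ 2 / 16, by positivity, p ^ 3 + 1, p ^ 2 + 1, diagonal (avec (p ^ 3)),
    Smp K (p ^ 3 + 1), inferInstance, unif (Smp K (p ^ 3 + 1)), inferInstance, Smat K b,
    by omega, ?_, ?_, ?_⟩
  · intro ε hε
    exact isOSI_Smat hK2 b hg s hoff hμK δ hδK ε hε
  · unfold bestErr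
    apply Real.sInf_nonneg
    rintro e ⟨B, _, rfl⟩
    exact Real.sqrt_nonneg _
  · intro ω
    have h1 := err_lower hK2 s hs1 hs0 w hw3 hN hk ω
    have h2 := bestErr_le (p ^ 3)
    set F := frob (diagonal (avec (p ^ 3)) -
      rsvd (diagonal (avec (p ^ 3))) (Smat K (brow s w) ω)) with hF
    have hF0 : 0 ≤ F := Real.sqrt_nonneg _
    have h3 : (1 + s ^ 2 / 16) * bestErr (diagonal (avec (p ^ 3))) 1 ≤
        (1 + s ^ 2 / 16) * Real.sqrt ((p ^ 3 : ℕ) : ℝ) :=
      mul_le_mul_of_nonneg_left h2 (by positivity)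
    refine lt_of_le_of_lt h3 ?_
    refine lt_of_pow_lt_pow_left₀ 2 hF0 (lt_of_lt_of_le ?_ h1)
    rw [mul_pow, Real.sq_sqrt hNr.le, mul_comm]
    refine mul_lt_mul_of_pos_left ?_ hNr
    have hs2p : 0 < s ^ 2 := by positivity
    nlinarith

/-- **Negative answer to Q1**, for every constant failure probability `δ > 0` (in particular for
`δ = 0.01`).  No constants `C` and `p₀ > 0` make the bound of Q1 true.  More precisely there are a
constant `c > 0`, a square matrix `A` and a random matrix `S` which is an oblivious subspace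
injection with dimension `1`, every injectivity `1 - ε ≤ 1` and failure probability `δ`, such that
for every outcome the error of the randomized SVD exceeds `(1 + c) ‖A - A_1‖_F`. -/
theorem result : ∀ δ : ℝ, 0 < δ →
    (∀ C p₀ : ℝ, 0 < p₀ → ¬ ConstBound δ C p₀) ∧
    ∃ c : ℝ, 0 < c ∧ ∃ (d k : ℕ) (A : Matrix (Fin d) (Fin d) ℝ) (W : Type)
      (_ : MeasurableSpace W) (P : Measure W) (_ : IsProbabilityMeasure P)
      (S : W → Matrix (Fin d) (Fin k) ℝ), (∀ ε : ℝ, 0 ≤ ε → IsOSI P S 1 (1 - ε) δ) ∧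
        ∀ w, (1 + c) * bestErr A 1 < frob (A - rsvd A (S w)) := by
  intro δ hδ
  obtain ⟨c, hc, d, k, A, W, mW, P, hP, S, hd, hS, hb, hw⟩ := example_exists δ hδ
  refine ⟨?_, c, hc, d, k, A, W, mW, P, hP, S, hS, hw⟩
  intro C p₀ hp₀ hcon
  have hM : (0 : ℝ) < |C| + c + 1 := by positivity
  set ε : ℝ := c / (|C| + c + 1) with hε
  have hε0 : 0 < ε := by positivity
  have hε1 : ε < 1 := by
    rw [hε, div_lt_one hM]
    have := abs_nonneg C
    linarith
  obtain ⟨D, -, hD1, hD2⟩ := hcon ε hε0 hε1 d d k 1 le_rfl hd A W mW P hP S (hS ε hε0.le)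
  have hne : D.Nonempty := by
    rw [Set.nonempty_iff_ne_empty]
    rintro rfl
    simp at hD1
    linarith
  obtain ⟨w, hwD⟩ := hne
  have h1 := hD2 w hwD
  have h2 := hw w
  have h3 : C * ε ≤ c := by
    have h4 : C * ε ≤ |C| * ε := mul_le_mul_of_nonneg_right (le_abs_self C) hε0.le
    have h5 : |C| * ε ≤ c := by
      rw [hε, mul_div_assoc', div_le_iff₀ hM]
      nlinarith [abs_nonneg C]
    linarith
  have h6 : (1 + C * ε) * bestErr A 1 ≤ (1 + c) * bestErr A 1 :=
    mul_le_mul_of_nonneg_right (by linarith) hb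
  linarith

end Pool.Agent.Results.MP_082b65_an.ConstantFailure
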